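import Mathlib

/-!
# MP_887aa5_nt, Q1 is false

The Gaussian power sum `G_n(p) = ∑ (a + b i)^n` over `1 ≤ a, b ≤ p - 1`.  For the prime
`p = 7` (which is `3` modulo `4`) and the odd number `r = 5` the valuation
`v_7(G_{r(p-1)}(7)) = v_7(G_30(7))` is equal to `5`, not to `3`.
-/

set_option autoImplicit false

namespace Pool.Agent.Results.MP_887aa5_nt.ValuationFive

/-- The Gaussian power sum `∑_{a,b = 1}^{p-1} (a + b i)^n`. -/
def G (n p : ℕ) : GaussianInt :=
  ∑ a ∈ Finset.Icc 1 (p - 1), ∑ b ∈ Finset.Icc 1 (p - 1), (⟨(a : ℤ), (b : ℤ)⟩ : GaussianInt) ^ n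

/-- The valuation `v_p(x + y i) = min (v_p(x)) (v_p(y))`, with `v_p(0) = ∞`. -/
noncomputable def v (p : ℕ) (z : GaussianInt) : ℕ∞ :=
  min (emultiplicity (p : ℤ) z.re) (emultiplicity (p : ℤ) z.im)

/-- The assertion of Q1. -/
def Assertion : Prop :=
  ∀ p : ℕ, p.Prime → p % 4 = 3 → 7 ≤ p → ∀ r : ℕ, 1 ≤ r →
    (Even r → v p (G (r * (p - 1)) p) = 0) ∧ (Odd r → v p (G (r * (p - 1)) p) = 3)

theorem G30 : G (5 * (7 - 1)) 7 = ⟨0, -6264101156848215194673755568⟩ := by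
  decide +kernel

theorem v30 : v 7 (G (5 * (7 - 1)) 7) = 5 := by
  rw [G30]
  unfold v
  have h0 : emultiplicity ((7 : ℕ) : ℤ) (0 : ℤ) = ⊤ := emultiplicity_zero _
  have h1 : emultiplicity ((7 : ℕ) : ℤ) (-6264101156848215194673755568 : ℤ) = (5 : ℕ) := by
    rw [emultiplicity_eq_coe]
    constructor <;> norm_num
  simp only [h0, h1]
  simp

/-- The value for `p = 7`, `r = 5`, and the failure of the assertion of Q1. -/
theorem result : v 7 (G (5 * (7 - 1)) 7) = 5 ∧ ¬ Assertion := by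
  refine ⟨v30, fun h => ?_⟩
  have h1 := (h 7 (by norm_num) (by norm_num) (by norm_num) 5 (by norm_num)).2 (by decide)
  rw [v30] at h1
  exact absurd h1 (by decide)

end Pool.Agent.Results.MP_887aa5_nt.ValuationFive
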